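import Mathlib
import Pool.Graph.R_seed8.H175R2.Defs

set_option autoImplicit false

/-! Graphs of clique-width at most `q + 2` and large minimum degree such that every colouring with
`q` colours has a vertex all of whose neighbours have the same colour. -/

namespace Pool.Agent.KS6_57.CW

open Pool.Agent.H175R2 SimpleGraph

/-- `v` has at least `c` neighbours -/
def Big {V : Type} (G : SimpleGraph V) (v : V) (c : ℕ) : Prop :=
  ∃ s : Finset V, c ≤ s.card ∧ ∀ u ∈ s, G.Adj v u

theorem Big.mono {V : Type} {G : SimpleGraph V} {v : V} {c d : ℕ} (h : Big G v c) (hd : d ≤ c) :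
    Big G v d := by
  obtain ⟨s, h1, h2⟩ := h
  exact ⟨s, hd.trans h1, h2⟩

theorem Big.map {V W : Type} {G : SimpleGraph V} {H : SimpleGraph W} (f : V ↪ W) {v : V} {c : ℕ}
    (h : Big G v c) (hf : ∀ u, G.Adj v u → H.Adj (f v) (f u)) : Big H (f v) c := by
  obtain ⟨s, h1, h2⟩ := h
  refine ⟨s.map f, by simpa using h1, ?_⟩
  intro u hu
  obtain ⟨w, hw, rfl⟩ := Finset.mem_map.1 hu
  exact hf w (h2 w hw)

/-- the labels `q` and `q + 1` are auxiliary -/
structure Kind (q D : ℕ) (k : ℕ → ℕ) (V : Type) (G : SimpleGraph V) (l : V → Fin (q + 2)) :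
    Prop where
  built : CwBuilt (q + 2) V G l
  lab : ∀ v, (l v).val < q
  deg : ∀ v, Big G v (k (l v).val)
  many : (∀ i, 0 < i → i < q → 0 < k i) →
    ∃ s : Finset V, D + 1 ≤ s.card ∧ ∀ u ∈ s, (l u).val = 0
  col : ∀ f : V → ℕ, (∀ v, f v < q) → ∃ v, ∀ u, G.Adj v u → f u = (l v).val

/-- an intermediate graph: the new vertex `x` has already been joined to the first `m` parts -/
structure Part (q D : ℕ) (k : ℕ → ℕ) (m : ℕ) (V : Type) (G : SimpleGraph V) (l : V → Fin (q + 2))
    (x : V) : Prop where
  built : CwBuilt (q + 2) V G l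
  labx : (l x).val = q
  lab : ∀ v, v ≠ x → (l v).val < q
  deg : ∀ v, v ≠ x → Big G v (k (l v).val)
  degx : 0 < m → Big G x (D + 1)
  many : 0 < m → ∃ s : Finset V, D + 1 ≤ s.card ∧ ∀ u ∈ s, (l u).val = 0
  col : ∀ f : V → ℕ, (∀ v, f v < q) → f x < m →
    ∃ v, v ≠ x ∧ ∀ u, G.Adj v u → f u = (l v).val

theorem Part.step {q D : ℕ} {k : ℕ → ℕ} {m : ℕ} (hm : m < q) (hk : ∀ i, i < q → 0 < k i)
    {V W : Type} {G : SimpleGraph V} {l : V → Fin (q + 2)} {x : V} {H : SimpleGraph W}
    {n : W → Fin (q + 2)} (hp : Part q D k m V G l x)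
    (hK : Kind q D (Function.update k m (k m - 1)) W H n) :
    ∃ (G' : SimpleGraph (V ⊕ W)) (l' : V ⊕ W → Fin (q + 2)),
      Part q D k (m + 1) (V ⊕ W) G' l' (Sum.inl x) := by
  classical
  obtain ⟨K, l', B, q1, q2, k1, k2, k3⟩ : ∃ (K : SimpleGraph (V ⊕ W)) (l' : V ⊕ W → Fin (q + 2)),
      CwBuilt (q + 2) _ K l' ∧ (∀ v, l' (.inl v) = l v) ∧ (∀ w, l' (.inr w) = n w) ∧
      (∀ u v, K.Adj (.inl u) (.inl v) ↔ G.Adj u v) ∧
      (∀ u v, K.Adj (.inr u) (.inr v) ↔ H.Adj u v) ∧
      (∀ u w, K.Adj (.inl u) (.inr w) ↔ u = x ∧ (n w).val = m) := by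
    have hEl : ∀ v, l v ≠ (⟨q + 1, by omega⟩ : Fin (q + 2)) := by
      intro v hv
      by_cases hx : v = x
      · have := hp.labx
        rw [← hx, hv] at this
        simp at this
      · have := hp.lab v hx
        rw [hv] at this
        simp only at this
        omega
    have hDl : ∀ v, l v = (⟨q, by omega⟩ : Fin (q + 2)) ↔ v = x := by
      intro v
      constructor
      · intro hv
        by_contra hx
        have := hp.lab v hx
        rw [hv] at this
        simp only at this
        omega
      · intro hv
        apply Fin.ext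
        rw [hv]
        exact hp.labx
    have hEn : ∀ w, n w ≠ (⟨q + 1, by omega⟩ : Fin (q + 2)) := by
      intro w hw
      have := hK.lab w
      rw [hw] at this
      simp only at this
      omega
    have hDn : ∀ w, n w ≠ (⟨q, by omega⟩ : Fin (q + 2)) := by
      intro w hw
      have := hK.lab w
      rw [hw] at this
      simp only at this
      omega
    have hDE : (⟨q, by omega⟩ : Fin (q + 2)) ≠ (⟨q + 1, by omega⟩ : Fin (q + 2)) := by
      intro h
      have := congrArg Fin.val h
      simp at this
    have hA : ∀ w, n w = (⟨m, by omega⟩ : Fin (q + 2)) ↔ (n w).val = m := by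
      intro w
      constructor
      · intro h; rw [h]
      · intro h; exact Fin.ext h
    have b1 := CwBuilt.relabel _ _ _ (⟨m, by omega⟩ : Fin (q + 2)) (⟨q + 1, by omega⟩ : Fin (q + 2))
      hK.built
    have b2 := CwBuilt.union _ _ _ _ _ _ hp.built b1
    have b3 := CwBuilt.join _ _ _ (⟨q, by omega⟩ : Fin (q + 2)) (⟨q + 1, by omega⟩ : Fin (q + 2))
      hDE b2
    have b4 := CwBuilt.relabel _ _ _ (⟨q + 1, by omega⟩ : Fin (q + 2)) (⟨m, by omega⟩ : Fin (q + 2))
      b3
    refine ⟨_, _, b4, ?_, ?_, ?_, ?_, ?_⟩
    · intro v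
      simp [hEl v]
    · intro w
      by_cases h : n w = (⟨m, by omega⟩ : Fin (q + 2))
      · simp [h]
      · simp [h, hEn w]
    · intro u v
      simp [hEl u, hEl v]
    · intro u v
      have e1 : ∀ w, (if n w = (⟨m, by omega⟩ : Fin (q + 2)) then (⟨q + 1, by omega⟩ : Fin (q + 2))
          else n w) ≠ (⟨q, by omega⟩ : Fin (q + 2)) := by
        intro w
        split_ifs
        · exact hDE.symm
        · exact hDn w
      simp [e1 u, e1 v]
    · intro u w
      have e1 : (if n w = (⟨m, by omega⟩ : Fin (q + 2)) then (⟨q + 1, by omega⟩ : Fin (q + 2))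
          else n w) = (⟨q + 1, by omega⟩ : Fin (q + 2)) ↔ (n w).val = m := by
        rw [← hA]
        constructor
        · intro h
          by_contra hc
          rw [if_neg hc] at h
          exact hEn w h
        · intro h
          rw [if_pos h]
      simp [e1, hEl u, hDl u]
  have k3' : ∀ u w, K.Adj (.inr w) (.inl u) ↔ u = x ∧ (n w).val = m := fun u w => by
    rw [K.adj_comm, k3]
  refine ⟨K, l', B, ?_, ?_, ?_, ?_, ?_, ?_⟩
  · rw [q1]; exact hp.labx
  · rintro (v | w) hv
    · rw [q1]
      exact hp.lab v (fun h => hv (by rw [h]))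
    · rw [q2]
      exact hK.lab w
  · rintro (v | w) hv
    · rw [q1]
      exact (hp.deg v (fun h => hv (by rw [h]))).map Function.Embedding.inl
        (fun u hu => (k1 v u).2 hu)
    · rw [q2]
      obtain ⟨s, s1, s2⟩ := hK.deg w
      by_cases hw : (n w).val = m
      · rw [hw, Function.update_self] at s1
        refine ⟨insert (.inl x) (s.map Function.Embedding.inr), ?_, ?_⟩
        · rw [Finset.card_insert_of_notMem (by simp), Finset.card_map, hw]
          have := hk m hm
          omega
        · intro u hu
          rcases Finset.mem_insert.1 hu with rfl | hu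
          · exact (k3' x w).2 ⟨rfl, hw⟩
          · obtain ⟨u', hu', rfl⟩ := Finset.mem_map.1 hu
            exact (k2 w u').2 (s2 u' hu')
      · rw [Function.update_of_ne hw] at s1
        refine ⟨s.map Function.Embedding.inr, by simpa using s1, ?_⟩
        intro u hu
        obtain ⟨u', hu', rfl⟩ := Finset.mem_map.1 hu
        exact (k2 w u').2 (s2 u' hu')
  · intro _
    rcases Nat.eq_zero_or_pos m with h0 | h0
    · subst h0
      obtain ⟨s, s1, s2⟩ := hK.many (by
        intro i hi hiq
        rw [Function.update_of_ne (by omega)]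
        exact hk i hiq)
      refine ⟨s.map Function.Embedding.inr, by simpa using s1, ?_⟩
      intro u hu
      obtain ⟨u', hu', rfl⟩ := Finset.mem_map.1 hu
      exact (k3 x u').2 ⟨rfl, s2 u' hu'⟩
    · exact (hp.degx h0).map Function.Embedding.inl (fun u hu => (k1 x u).2 hu)
  · intro _
    rcases Nat.eq_zero_or_pos m with h0 | h0
    · subst h0
      obtain ⟨s, s1, s2⟩ := hK.many (by
        intro i hi hiq
        rw [Function.update_of_ne (by omega)]
        exact hk i hiq)
      refine ⟨s.map Function.Embedding.inr, by simpa using s1, ?_⟩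
      intro u hu
      obtain ⟨u', hu', rfl⟩ := Finset.mem_map.1 hu
      show (l' (.inr u')).val = 0
      rw [q2]
      exact s2 u' hu'
    · obtain ⟨s, s1, s2⟩ := hp.many h0
      refine ⟨s.map Function.Embedding.inl, by simpa using s1, ?_⟩
      intro u hu
      obtain ⟨u', hu', rfl⟩ := Finset.mem_map.1 hu
      show (l' (.inl u')).val = 0
      rw [q1]
      exact s2 u' hu'
  · intro f hf hx
    rcases Nat.lt_or_ge (f (.inl x)) m with h | h
    · obtain ⟨v, hv, hv2⟩ := hp.col (fun v => f (.inl v)) (fun v => hf _) h
      refine ⟨.inl v, fun hc => hv (Sum.inl_injective hc), ?_⟩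
      rintro (u | u) hu
      · rw [q1]; exact hv2 u ((k1 v u).1 hu)
      · exact absurd ((k3 v u).1 hu).1 hv
    · have hfx : f (.inl x) = m := by omega
      obtain ⟨w, hw⟩ := hK.col (fun v => f (.inr v)) (fun v => hf _)
      refine ⟨.inr w, by simp, ?_⟩
      rintro (u | u) hu
      · obtain ⟨rfl, h2⟩ := (k3' u w).1 hu
        rw [q2, hfx, h2]
      · rw [q2]; exact hw u ((k2 w u).1 hu)

theorem exists_indep (t : ℕ) (i : Fin t) (n : ℕ) : ∃ (V : Type) (_ : Fintype V),
    n + 1 ≤ Fintype.card V ∧ CwBuilt t V ⊥ (fun _ => i) := by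
  induction n with
  | zero => exact ⟨Unit, inferInstance, by simp, CwBuilt.single i⟩
  | succ n ih =>
    obtain ⟨V, hV, hcard, hb⟩ := ih
    refine ⟨V ⊕ Unit, inferInstance, ?_, ?_⟩
    · rw [Fintype.card_sum]; simpa using hcard
    · have := CwBuilt.union _ _ _ _ _ _ hb (CwBuilt.single (k := t) i)
      have e1 : ((⊥ : SimpleGraph V) ⊕g (⊥ : SimpleGraph Unit)) = ⊥ := by
        ext u v
        rcases u with u | u <;> rcases v with v | v <;> simp
      rw [e1] at this
      have e : (Sum.elim (fun _ : V => i) (fun _ : Unit => i)) = fun _ => i := by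
        funext v
        rcases v with v | v <;> rfl
      rw [e] at this
      exact this

theorem exists_kind (q D : ℕ) (hq : 0 < q) : ∀ N, ∀ k : ℕ → ℕ, (∀ i, k i ≤ D + 1) →
    ∑ i ∈ Finset.range q, k i = N →
    ∃ (V : Type) (G : SimpleGraph V) (l : V → Fin (q + 2)), Kind q D k V G l := by
  intro N
  induction N using Nat.strong_induction_on with
  | _ N ih =>
    intro k hkD hN
    by_cases h0 : k 0 = 0
    · obtain ⟨V, hV, hc, hb⟩ := exists_indep (q + 2) ⟨0, by omega⟩ D
      have hne : Nonempty V := Fintype.card_pos_iff.1 (by omega)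
      obtain ⟨v⟩ := hne
      refine ⟨V, ⊥, _, hb, fun _ => hq, fun v => ⟨∅, by simp [h0], by simp⟩,
        fun _ => ⟨Finset.univ, by simpa using hc, fun _ _ => rfl⟩, fun f _ => ⟨v, by simp⟩⟩
    · by_cases h1 : ∃ i, 0 < i ∧ i < q ∧ k i = 0
      · obtain ⟨i, hi, hiq, hki⟩ := h1
        refine ⟨Unit, ⊥, _, CwBuilt.single ⟨i, by omega⟩, fun _ => hiq,
          fun v => ⟨∅, by simp [hki], by simp⟩, fun h => absurd (h i hi hiq) (by omega),
          fun f _ => ⟨(), by simp⟩⟩
      · have hk : ∀ i, i < q → 0 < k i := by
          intro i hi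
          rcases Nat.eq_zero_or_pos i with rfl | hi0
          · omega
          · by_contra hc
            exact h1 ⟨i, hi0, hi, by omega⟩
        have hK : ∀ m, m < q → ∃ (V : Type) (G : SimpleGraph V) (l : V → Fin (q + 2)),
            Kind q D (Function.update k m (k m - 1)) V G l := by
          intro m hm
          refine ih _ ?_ _ ?_ rfl
          · rw [← hN]
            apply Finset.sum_lt_sum
            · intro i _
              by_cases him : i = m
              · subst him; simp
              · rw [Function.update_of_ne him]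
            · refine ⟨m, Finset.mem_range.2 hm, ?_⟩
              rw [Function.update_self]
              have := hk m hm
              omega
          · intro i
            by_cases him : i = m
            · subst him
              rw [Function.update_self]
              have := hkD i
              omega
            · rw [Function.update_of_ne him]
              exact hkD i
        have hP : ∀ m, m ≤ q → ∃ (V : Type) (G : SimpleGraph V) (l : V → Fin (q + 2)) (x : V),
            Part q D k m V G l x := by
          intro m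
          induction m with
          | zero =>
            intro _
            refine ⟨Unit, ⊥, _, (), CwBuilt.single ⟨q, by omega⟩, rfl, ?_, ?_, ?_, ?_, ?_⟩
            · intro v hv; exact absurd rfl hv
            · intro v hv; exact absurd rfl hv
            · intro h; exact absurd h (lt_irrefl _)
            · intro h; exact absurd h (lt_irrefl _)
            · intro f _ h; exact absurd h (Nat.not_lt_zero _)
          | succ m ihm =>
            intro hm
            obtain ⟨V, G, l, x, hp⟩ := ihm (by omega)
            obtain ⟨W, H, n, hK'⟩ := hK m (by omega)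
            obtain ⟨G', l', h'⟩ := hp.step (by omega) hk hK'
            exact ⟨_, G', l', _, h'⟩
        obtain ⟨V, G, l, x, hp⟩ := hP q le_rfl
        have b := CwBuilt.relabel _ _ _ (⟨q, by omega⟩ : Fin (q + 2)) (⟨0, by omega⟩ : Fin (q + 2))
          hp.built
        have e1 : ∀ v, v ≠ x → (if l v = (⟨q, by omega⟩ : Fin (q + 2)) then
            (⟨0, by omega⟩ : Fin (q + 2)) else l v) = l v := by
          intro v hv
          rw [if_neg]
          intro hc
          have := hp.lab v hv
          rw [hc] at this
          simp only at this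
          omega
        have e2 : (if l x = (⟨q, by omega⟩ : Fin (q + 2)) then
            (⟨0, by omega⟩ : Fin (q + 2)) else l x) = ⟨0, by omega⟩ := by
          rw [if_pos]
          exact Fin.ext hp.labx
        refine ⟨V, G, _, b, ?_, ?_, ?_, ?_⟩
        · intro v
          by_cases hv : v = x
          · subst hv
            simp only [e2]
            exact hq
          · simp only [e1 v hv]
            exact hp.lab v hv
        · intro v
          by_cases hv : v = x
          · subst hv
            simp only [e2]
            exact (hp.degx hq).mono (hkD 0)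
          · simp only [e1 v hv]
            exact hp.deg v hv
        · intro _
          obtain ⟨s, s1, s2⟩ := hp.many hq
          refine ⟨s, s1, ?_⟩
          intro u hu
          have hux : u ≠ x := by
            rintro rfl
            have h3 := s2 _ hu
            rw [hp.labx] at h3
            omega
          simp only [e1 u hux]
          exact s2 u hu
        · intro f hf
          obtain ⟨v, hv, hv2⟩ := hp.col f hf (hf x)
          refine ⟨v, ?_⟩
          simp only [e1 v hv]
          exact hv2

theorem finite_of_built {k : ℕ} {V : Type} {G : SimpleGraph V} {l : V → Fin k}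
    (h : CwBuilt k V G l) : Finite V := by
  induction h <;> infer_instance

/-- **For every `q ≥ 1` and `δ` there is a finite graph of clique-width at most `q + 2` and minimum
degree at least `δ` such that in every colouring with `q` colours some vertex sees at most one
colour in its (open) neighbourhood.** -/
theorem exists_mono (q δ : ℕ) (hq : 0 < q) : ∃ (V : Type) (G : SimpleGraph V), Finite V ∧
    Nonempty V ∧ CwLE G (q + 2) ∧ (∀ v, δ ≤ (G.neighborSet v).ncard) ∧
    ∀ f : V → Fin q, ∃ v i, ∀ u, G.Adj v u → f u = i := by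
  obtain ⟨V, G, l, h⟩ := exists_kind q δ hq _ (fun _ => δ) (fun _ => by omega) rfl
  haveI := finite_of_built h.built
  obtain ⟨v0, -⟩ := h.col (fun _ => 0) (fun _ => hq)
  refine ⟨V, G, inferInstance, ⟨v0⟩, ⟨V, G, l, h.built, ⟨SimpleGraph.Iso.refl⟩⟩, ?_, ?_⟩
  · intro v
    obtain ⟨s, s1, s2⟩ := h.deg v
    refine s1.trans ?_
    rw [← Set.ncard_coe_finset]
    exact Set.ncard_le_ncard (fun u hu => s2 u hu) (Set.toFinite _)
  · intro f
    obtain ⟨v, hv⟩ := h.col (fun u => (f u).val) (fun u => (f u).isLt)
    exact ⟨v, ⟨(l v).val, h.lab v⟩, fun u hu => Fin.ext (hv u hu)⟩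

end Pool.Agent.KS6_57.CW
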